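import Pool.Agent.Q26.CC.Sel

/-!
A scale and a cube surface without bad points (for VL-14).
-/

set_option autoImplicit false

open MeasureTheory Set Metric
open scoped ENNReal

namespace Pool.Agent.H1VL

open Pool.Agent.Q26.CC

/-- If the balls around the points of `S` cover all the values of `H` then `S` is large. -/
lemma heightsH {a b ρ : ℝ} (H : V3 → ℝ) (S : Finset V3) (hρ : 0 < ρ)
    (h : ∀ s ∈ Icc a b, ∃ y ∈ S, |s - H y| ≤ 2 * ρ) :
    b - a ≤ S.card * (4 * ρ) := by
  have h1 : Icc a b ⊆ ⋃ y ∈ S, Icc (H y - 2 * ρ) (H y + 2 * ρ) := by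
    intro s hs
    obtain ⟨y, hy, hsy⟩ := h s hs
    rw [abs_le] at hsy
    simp only [mem_iUnion]
    exact ⟨y, hy, by linarith [hsy.1], by linarith [hsy.2]⟩
  have h2 : volume (Icc a b) ≤ ∑ y ∈ S, volume (Icc (H y - 2 * ρ) (H y + 2 * ρ)) :=
    (measure_mono h1).trans (measure_biUnion_finset_le _ _)
  simp only [Real.volume_Icc] at h2
  have e1 : ∀ y, H y + 2 * ρ - (H y - 2 * ρ) = 4 * ρ := fun y => by ring
  simp only [e1, Finset.sum_const, nsmul_eq_mul] at h2
  rw [← ENNReal.ofReal_natCast, ← ENNReal.ofReal_mul (by positivity),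
    ENNReal.ofReal_le_ofReal_iff (by positivity)] at h2
  exact h2

theorem selS {β a ε C : ℝ} (hβ : 0 < β) (hβ1 : β ≤ 1) (ha : 0 ≤ a) (hε : 0 < ε) (hC : 0 ≤ C) :
    ∃ N : ℕ, ∀ (F : ℝ → V3 → ℝ≥0∞) (t r : ℝ) (x : V3), 0 < r →
      ∫⁻ τ in Ioo (t - r ^ 2) t, ∫⁻ z in ball x ((4 + a) * r), F τ z ≤ ENNReal.ofReal (C * r) →
      ∃ n < N, ∃ s ∈ Icc (r / 64) (r / 32), ∀ y, ‖y - x‖ = s →
          DD F t β a (sc r n) y ≤ ENNReal.ofReal (ε * sc r n) := by
  have hl : (1 : ℝ) < 4 ^ β := Real.one_lt_rpow (by norm_num) hβ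
  have hl1 : (0 : ℝ) < 4 ^ β - 1 := by linarith
  obtain ⟨Q, hQ⟩ : ∃ Q, Q = 2 * 4 ^ β / (4 ^ β - 1) * ((2 * a + 1) ^ 3 * C) / ε := ⟨_, rfl⟩
  have hQ0 : 0 ≤ Q := by rw [hQ]; positivity
  obtain ⟨N, hN⟩ := exists_nat_gt (4 * Q * 64)
  refine ⟨N, ?_⟩
  intro F t r x hr hF
  -- bound for the families
  have hsum : ∀ (N : ℕ) (Y : ℕ → Finset V3),
      (∀ n, ∀ y ∈ Y n, ∀ y' ∈ Y n, y ≠ y' → sc r n ≤ ‖y - y'‖) →
      (∀ n, ∀ y ∈ Y n, y ∈ closedBall x (4 * r) ∧
        ENNReal.ofReal (ε * sc r n) < DD F t β a (sc r n) y) →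
      ∑ n ∈ Finset.range N, (Y n).card * sc r n ≤ Q * r := by
    intro N Y h1 h2
    have h3 := count_sum (F := F) (t := t) (ε := ε) hβ hβ1 ha hr x N Y h1
      (fun n y hy => (h2 n y hy).1) (fun n y hy => (h2 n y hy).2.le)
    have h4 : ENNReal.ofReal (2 * 4 ^ β / (4 ^ β - 1)) * (ENNReal.ofReal ((2 * a + 1) ^ 3) *
        ∫⁻ τ in Ioo (t - r ^ 2) t, ∫⁻ z in ball x ((4 + a) * r), F τ z)
        ≤ ENNReal.ofReal (2 * 4 ^ β / (4 ^ β - 1) * ((2 * a + 1) ^ 3 * (C * r))) := by
      rw [ENNReal.ofReal_mul (by positivity), ENNReal.ofReal_mul (by positivity)]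
      gcongr
    have h5 : ∑ n ∈ Finset.range N, (Y n).card * ENNReal.ofReal (ε * sc r n)
        = ENNReal.ofReal (∑ n ∈ Finset.range N, (Y n).card * (ε * sc r n)) := by
      rw [ENNReal.ofReal_sum_of_nonneg]
      · refine Finset.sum_congr rfl fun n _ => ?_
        rw [← ENNReal.ofReal_natCast, ← ENNReal.ofReal_mul (by positivity)]
      · intro n _
        have := sc_pos hr n
        positivity
    have h6 := h3.trans h4
    rw [h5, ENNReal.ofReal_le_ofReal_iff (by positivity)] at h6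
    have h7 : ∑ n ∈ Finset.range N, (Y n).card * (ε * sc r n)
        = ε * ∑ n ∈ Finset.range N, (Y n).card * sc r n := by
      rw [Finset.mul_sum]
      exact Finset.sum_congr rfl fun n _ => by ring
    rw [h7] at h6
    have h8 : 2 * 4 ^ β / (4 ^ β - 1) * ((2 * a + 1) ^ 3 * (C * r)) = ε * (Q * r) := by
      rw [hQ]
      field_simp
    rw [h8] at h6
    exact le_of_mul_le_mul_left h6 hε
  by_contra hcon
  push Not at hcon
  -- the maximal sets
  have hmax : ∀ n, ∃ S : Finset V3, (∀ x ∈ S, ∀ y ∈ S, x ≠ y → sc r n ≤ ‖x - y‖) ∧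
      (∀ y ∈ S, y ∈ closedBall x (4 * r) ∧
        ENNReal.ofReal (ε * sc r n) < DD F t β a (sc r n) y) ∧
      ∀ y, (y ∈ closedBall x (4 * r) ∧
        ENNReal.ofReal (ε * sc r n) < DD F t β a (sc r n) y) → ∃ y' ∈ S, ‖y - y'‖ < sc r n := by
    intro n
    apply max_sep _ (sc_pos hr n) ⌈Q * r / sc r n⌉₊
    intro S hS1 hS2
    have h1 := hsum (n + 1) (fun m => if m = n then S else ∅) (by
        intro m y hy y' hy' hyy
        by_cases h : m = n
        · subst h
          simp only [if_true] at hy hy'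
          exact hS1 y hy y' hy' hyy
        · simp only [if_neg h] at hy
          exact absurd hy (Finset.notMem_empty y)) (by
        intro m y hy
        by_cases h : m = n
        · subst h
          simp only [if_true] at hy
          exact hS2 y hy
        · simp only [if_neg h] at hy
          exact absurd hy (Finset.notMem_empty y))
    have h2 : (S.card : ℝ) * sc r n
        ≤ ∑ m ∈ Finset.range (n + 1), ((if m = n then S else ∅ : Finset V3).card : ℝ) * sc r m := by
      have h3 := Finset.single_le_sum (s := Finset.range (n + 1))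
        (f := fun m => ((if m = n then S else ∅ : Finset V3).card : ℝ) * sc r m)
        (fun m _ => by have := sc_pos hr m; positivity) (Finset.self_mem_range_succ n)
      simpa using h3
    have h4 := h2.trans h1
    have h5 : (S.card : ℝ) ≤ Q * r / sc r n := by
      rw [le_div_iff₀ (sc_pos hr n)]
      exact h4
    exact_mod_cast h5.trans (Nat.le_ceil _)
  choose Y hY1 hY2 hY3 using hmax
  have h1 := hsum N Y hY1 hY2
  have h2 : ∀ n ∈ Finset.range N, r / 64 ≤ 4 * ((Y n).card * sc r n) := by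
    intro n hn
    have h3 := heightsH (fun y => ‖y - x‖) (a := r / 64) (b := r / 32) (Y n) (sc_pos hr n) (by
      intro s hs
      obtain ⟨y, hy1, hy3⟩ := hcon n (Finset.mem_range.1 hn) s hs
      have hs0 : 0 ≤ s := (by positivity : 0 ≤ r / 64).trans hs.1
      obtain ⟨y', hy', hyy⟩ := hY3 n y ⟨by
        rw [mem_closedBall, dist_eq_norm, hy1]
        linarith [hs.2], hy3⟩
      refine ⟨y', hy', ?_⟩
      show |s - ‖y' - x‖| ≤ _
      rw [← hy1]
      have h4 := abs_norm_sub_norm_le (y - x) (y' - x)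
      rw [sub_sub_sub_cancel_right] at h4
      have := sc_pos hr n
      linarith)
    linarith
  have h3 := Finset.sum_le_sum h2
  rw [Finset.sum_const, nsmul_eq_mul, Finset.card_range, ← Finset.mul_sum] at h3
  have h4 : (N : ℝ) * (r / 64) ≤ 4 * (Q * r) := by linarith
  have h5 : (N : ℝ) * r ≤ (4 * Q * 64) * r := by linarith
  have h6 := le_of_mul_le_mul_right h5 hr
  linarith

end Pool.Agent.H1VL
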