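import Pool.Agent.Q85.VL.Defs
import Pool.Agent.Q128.CC.Ana

/-!
# Quantitative analytic continuation along the surface of a cube (VL-10)
-/

set_option autoImplicit false

namespace Pool.Agent.H1VL

open MeasureTheory Set Metric
open scoped ContDiff
open H459R3.NS Pool.Agent.W268.NS Pool.Agent.Q67.VD Pool.Agent.Q85.CC Pool.Agent.Q85.CL
open Pool.Agent.Q85.VL Pool.Agent.Q128.CC

theorem dot_self_nn (d : V) : 0 ≤ d ⬝ᵥ d := by
  rw [dot3]
  nlinarith [sq_nonneg (d 0), sq_nonneg (d 1), sq_nonneg (d 2)]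

theorem dd_iter_sq' (d : V) (n : ℕ) : ∀ (f : V → ℝ), ContDiff ℝ ∞ f → ∀ y,
    ((dd d)^[n] f y) ^ 2 ≤ (d ⬝ᵥ d) ^ n * SQ n f y := by
  induction n with
  | zero => exact fun f _ y => by simp [SQ]
  | succ n ih =>
    intro f hf y
    have h1 : (dd d)^[n + 1] f y = ∑ i, d i * (dd d)^[n] (pd i f) y := by
      rw [Function.iterate_succ_apply]
      exact congrFun (dd_iter_lin d n (fun i => pd i f) fun i => pd_smooth' hf i) y
    rw [h1]
    refine (Finset.sum_mul_sq_le_sq_mul_sq Finset.univ (fun i => d i)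
      (fun i => (dd d)^[n] (pd i f) y)).trans ?_
    have h2 : ∑ i, d i ^ 2 = d ⬝ᵥ d := by
      unfold dotProduct
      exact Finset.sum_congr rfl fun i _ => sq (d i)
    rw [h2]
    calc d ⬝ᵥ d * ∑ i, ((dd d)^[n] (pd i f) y) ^ 2
        ≤ d ⬝ᵥ d * ∑ i, (d ⬝ᵥ d) ^ n * SQ n (pd i f) y :=
          mul_le_mul_of_nonneg_left (Finset.sum_le_sum fun i _ => ih (pd i f) (pd_smooth' hf i) y)
            (dot_self_nn d)
      _ = (d ⬝ᵥ d) ^ (n + 1) * SQ (n + 1) f y := by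
          rw [← Finset.mul_sum, pow_succ]
          show d ⬝ᵥ d * ((d ⬝ᵥ d) ^ n * _) = (d ⬝ᵥ d) ^ n * d ⬝ᵥ d * ∑ i, SQ n (pd i f) y
          ring

/-- the sequence of derivatives along a segment -/
noncomputable def sg (f : V → ℝ) (p D : V) (r : ℝ) (n : ℕ) (t : ℝ) : ℝ :=
  r ^ 2 * (dd D)^[n] f (p + t • D)

theorem sg_chain {f : V → ℝ} (hf : ContDiff ℝ ∞ f) (p D : V) (r : ℝ) : Chain (sg f p D r) := by
  intro n t
  unfold sg
  have h1 := (line_deriv (dd_iter_smooth hf D n) p D 1 t).const_mul (r ^ 2)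
  simp only [one_mul] at h1
  rw [Function.iterate_succ_apply']
  exact h1

theorem seg_step (c h ρ ε : ℝ) (hc : 1 ≤ c) (hh : 0 < h) (hρ : 0 < ρ) (hρh : ρ ≤ h) (hε : 0 < ε) :
    ∃ β : ℝ, 0 < β ∧ ∀ (v : V → V) (r : ℝ) (q q' : V), SM v → 0 < r → ‖q' - q‖ ≤ r / 16 →
      (∀ t ∈ Icc (0 : ℝ) 1, Gd c (h * r) v (q + t • (q' - q))) →
      (∀ y, ‖y - q‖ ≤ ρ * r → ∀ i j, Idx i j → r ^ 2 * |cur i j v y| ≤ β) →
      ∀ y, ‖y - q'‖ ≤ ρ / 2 * r → ∀ i j, Idx i j → r ^ 2 * |cur i j v y| ≤ ε := by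
  obtain ⟨β, hβ, H⟩ := cont (c / h ^ 2) (c / h) (min ρ (1 / 2)) 1 (by positivity)
    (by positivity) (lt_min hρ (by norm_num)) (lt_of_le_of_lt (min_le_right _ _) (by norm_num)) ε hε
  refine ⟨β, hβ, fun v r q q' hv hr hq hG hs y hy i j hij => ?_⟩
  have hf := cur_smooth hv i j
  obtain ⟨D, hD⟩ : ∃ D, D = q' - q := ⟨_, rfl⟩
  rw [← hD] at hq hG
  obtain ⟨u, hu⟩ : ∃ u, u = y - q' := ⟨_, rfl⟩
  rw [← hu] at hy
  have hDD : D ⬝ᵥ D ≤ r ^ 2 := by
    have h1 := dot_self_le D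
    have h2 : ‖D‖ ^ 2 ≤ (r / 16) ^ 2 := pow_le_pow_left₀ (norm_nonneg _) hq 2
    nlinarith [sq_nonneg r]
  have h1 := H (sg (cur i j v) (q + u) D r) (sg_chain hf _ _ r) (fun n T hT => ?_) (fun T hT => ?_) 1
    ⟨zero_le_one, le_refl _⟩
  · unfold sg at h1
    have e : q + u + (1 : ℝ) • D = y := by
      rw [hu, hD, one_smul]; abel
    rw [e] at h1
    simp only [Function.iterate_zero, id_eq] at h1
    rwa [abs_mul, abs_of_pos (by positivity : (0 : ℝ) < r ^ 2)] at h1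
  · have h3 : q + u + T • D ∈ ball (q + T • D) (h * r) := by
      rw [mem_ball, dist_eq_norm]
      have e : q + u + T • D - (q + T • D) = u := by abel
      rw [e]
      have : ρ / 2 * r ≤ h / 2 * r := mul_le_mul_of_nonneg_right (by linarith) hr.le
      have : 0 < h * r := by positivity
      linarith
    have h4 := (dd_iter_sq' D n (cur i j v) hf _).trans
      (mul_le_mul (pow_le_pow_left₀ (dot_self_nn D) hDD n) (hG T hT _ h3 n i j)
        (by
          have := sq_nonneg ((dd D)^[n] (cur i j v) (q + u + T • D))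
          have key : ∀ (m : ℕ) (g : V → ℝ) (y : V), 0 ≤ SQ m g y := by
            intro m
            induction m with
            | zero => exact fun g y => sq_nonneg _
            | succ m ih => exact fun g y => Finset.sum_nonneg fun k _ => ih _ _
          exact key _ _ _) (by positivity))
    have h5 : |(dd D)^[n] (cur i j v) (q + u + T • D)| ≤
        r ^ n * (c ^ (n + 1) * n.factorial / (h * r) ^ (n + 2)) := by
      refine abs_le_of_sq_le_sq (h4.trans (le_of_eq ?_)) (by positivity)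
      generalize c ^ (n + 1) * (n.factorial : ℝ) / (h * r) ^ (n + 2) = X
      ring
    unfold sg
    rw [abs_mul, abs_of_pos (by positivity : (0 : ℝ) < r ^ 2)]
    refine (mul_le_mul_of_nonneg_left h5 (by positivity)).trans (le_of_eq ?_)
    rw [mul_pow, div_pow]
    field_simp
    ring
  · unfold sg
    simp only [Function.iterate_zero, id_eq]
    rw [abs_mul, abs_of_pos (by positivity : (0 : ℝ) < r ^ 2)]
    refine hs _ ?_ i j hij
    have e : q + u + T • D - q = u + T • D := by abel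
    rw [e]
    refine (norm_add_le _ _).trans ?_
    rw [norm_smul, Real.norm_eq_abs, abs_of_nonneg hT.1]
    have hT2 : T ≤ ρ := hT.2.trans (min_le_left _ _)
    have h6 : T * ‖D‖ ≤ ρ * (r / 16) := mul_le_mul hT2 hq (norm_nonneg _) hρ.le
    have h7 : 0 < ρ * r := by positivity
    nlinarith

theorem start (c h b ρ β : ℝ) (hc : 1 ≤ c) (hh : 0 < h) (hb : 0 < b) (hρ : 0 < ρ)
    (hρb : ρ ≤ b / 2) (hρh : ρ ≤ h / 2) (hβ : 0 < β) :
    ∃ τ : ℝ, 0 < τ ∧ ∀ (v : V → V) (r : ℝ) (z : V), SM v → 0 < r → Gd c (h * r) v z →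
      ∫ y in closedBall z (b * r), om v y ≤ τ * r →
      ∀ y, ‖y - z‖ ≤ ρ * r → ∀ i j, Idx i j → r ^ 2 * |cur i j v y| ≤ β := by
  obtain ⟨δ₀, hδ₀⟩ : ∃ δ₀ : ℝ, δ₀ = min (b / 2) (min (h / 4) (β * h ^ 3 / (6 * c ^ 2))) :=
    ⟨_, rfl⟩
  have hd1 : δ₀ ≤ b / 2 := by rw [hδ₀]; exact min_le_left _ _
  have hd2 : δ₀ ≤ h / 4 := by
    rw [hδ₀]
    exact (min_le_right _ _).trans (min_le_left _ _)
  have hd3 : δ₀ ≤ β * h ^ 3 / (6 * c ^ 2) := by
    rw [hδ₀]
    exact (min_le_right _ _).trans (min_le_right _ _)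
  have hd0 : 0 < δ₀ := by
    rw [hδ₀]
    refine lt_min (by positivity) (lt_min (by positivity) (by positivity))
  refine ⟨2 * β * δ₀ ^ 3, by positivity, ?_⟩
  intro v r z hv hr hG hint y hy i j hij
  by_contra hcon
  push Not at hcon
  have hyb : y ∈ ball z (h * r) := by
    rw [mem_ball, dist_eq_norm]
    have : ρ * r ≤ h / 2 * r := mul_le_mul_of_nonneg_right hρh hr.le
    have : 0 < h * r := by positivity
    linarith
  have hEz : ∀ y' ∈ closedBall y (δ₀ * r), β / (2 * r ^ 2) ≤ om v y' := by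
    intro y' hy'
    rw [mem_closedBall, dist_eq_norm] at hy'
    have hzb : y' ∈ ball z (h * r) := by
      rw [mem_ball, dist_eq_norm]
      have h1 : y' - z = (y' - y) + (y - z) := by abel
      rw [h1]
      refine lt_of_le_of_lt (norm_add_le _ _) ?_
      have h2 : ρ * r ≤ h / 2 * r := mul_le_mul_of_nonneg_right hρh hr.le
      have h3 : δ₀ * r ≤ h / 4 * r := mul_le_mul_of_nonneg_right hd2 hr.le
      have : 0 < h * r := by positivity
      linarith
    have h1 := cur_lip hv hc (by positivity) hG hyb hzb i j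
    have h2 : 3 * (c ^ 2 / (h * r) ^ 3) * ‖y' - y‖ ≤ β / (2 * r ^ 2) := by
      calc 3 * (c ^ 2 / (h * r) ^ 3) * ‖y' - y‖ ≤ 3 * (c ^ 2 / (h * r) ^ 3) * (δ₀ * r) :=
            mul_le_mul_of_nonneg_left hy' (by positivity)
        _ = 3 * c ^ 2 / (h ^ 3 * r ^ 2) * δ₀ := by
            field_simp
        _ ≤ 3 * c ^ 2 / (h ^ 3 * r ^ 2) * (β * h ^ 3 / (6 * c ^ 2)) :=
            mul_le_mul_of_nonneg_left hd3 (by positivity)
        _ = β / (2 * r ^ 2) := by
            field_simp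
            ring
    have h3 : β / r ^ 2 < |cur i j v y| := by
      rw [div_lt_iff₀ (by positivity)]
      linarith
    have h4 := abs_sub_abs_le_abs_sub (cur i j v y) (cur i j v y')
    rw [abs_sub_comm] at h4
    have h5 := cur_le_om v y' hij
    have h6 : β / r ^ 2 = 2 * (β / (2 * r ^ 2)) := by
      field_simp
    linarith
  have hsub : closedBall y (δ₀ * r) ⊆ closedBall z (b * r) := by
    intro y' hy'
    rw [mem_closedBall, dist_eq_norm] at hy' ⊢
    have h1 : y' - z = (y' - y) + (y - z) := by abel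
    rw [h1]
    refine (norm_add_le _ _).trans ?_
    have h2 : ρ * r ≤ b / 2 * r := mul_le_mul_of_nonneg_right hρb hr.le
    have h3 : δ₀ * r ≤ b / 2 * r := mul_le_mul_of_nonneg_right hd1 hr.le
    linarith
  have hcont := om_cont' hv
  have hInt : IntegrableOn (om v) (closedBall z (b * r)) :=
    hcont.continuousOn.integrableOn_compact (isCompact_closedBall _ _)
  have hEfin : volume (closedBall y (δ₀ * r)) ≠ ⊤ := measure_closedBall_lt_top.ne
  have h1 : ∫ z in closedBall y (δ₀ * r), om v z ≤ ∫ y in closedBall z (b * r), om v y :=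
    setIntegral_mono_set hInt (Filter.Eventually.of_forall fun z => om_nonneg' v z)
      (Filter.Eventually.of_forall hsub)
  have h2 : β / (2 * r ^ 2) * (volume (closedBall y (δ₀ * r))).toReal
      ≤ ∫ z in closedBall y (δ₀ * r), om v z := by
    have h3 : ∫ _ in closedBall y (δ₀ * r), β / (2 * r ^ 2) ≤ ∫ z in closedBall y (δ₀ * r), om v z :=
      setIntegral_mono_on (integrableOn_const hEfin) (hInt.mono_set hsub) measurableSet_closedBall hEz
    rw [setIntegral_const, smul_eq_mul] at h3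
    rw [mul_comm]
    exact h3
  have h3 : (volume (closedBall y (δ₀ * r))).toReal = (2 * (δ₀ * r)) ^ 3 := by
    rw [Real.volume_pi_closedBall y (by positivity), ENNReal.toReal_ofReal (by positivity)]
    simp
  rw [h3] at h2
  have h4 : β / (2 * r ^ 2) * (2 * (δ₀ * r)) ^ 3 = 4 * β * δ₀ ^ 3 * r := by
    field_simp
    ring
  rw [h4] at h2
  have h5 : 0 < β * δ₀ ^ 3 * r := by positivity
  linarith

/-! ### The path on the surface -/

theorem exists_face {P : V} {s : ℝ} (hs : 0 < s) (hP : ‖P‖ = s) : ∃ i, |P i| = s := by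
  by_contra hcon
  push Not at hcon
  have h1 : ‖P‖ < s := by
    rw [pi_norm_lt_iff hs]
    intro i
    refine lt_of_le_of_ne ?_ (by rw [Real.norm_eq_abs]; exact hcon i)
    rw [← hP]
    exact norm_le_pi_norm P i
  linarith

theorem seg_surf {P Q : V} {s : ℝ} {k : Fin 3} (hk : P k = Q k) (hPk : |P k| = s) (hP : ‖P‖ ≤ s)
    (hQ : ‖Q‖ ≤ s) {t : ℝ} (ht : t ∈ Icc (0 : ℝ) 1) : ‖P + t • (Q - P)‖ = s := by
  apply le_antisymm
  · have e : P + t • (Q - P) = (1 - t) • P + t • Q := by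
      rw [smul_sub, sub_smul, one_smul]; abel
    rw [e]
    refine (norm_add_le _ _).trans ?_
    rw [norm_smul, norm_smul, Real.norm_eq_abs, Real.norm_eq_abs, abs_of_nonneg ht.1,
      abs_of_nonneg (by linarith [ht.2] : (0 : ℝ) ≤ 1 - t)]
    have h1 := mul_le_mul_of_nonneg_left hP (by linarith [ht.2] : (0 : ℝ) ≤ 1 - t)
    have h2 := mul_le_mul_of_nonneg_left hQ ht.1
    linarith
  · have h1 := norm_le_pi_norm (P + t • (Q - P)) k
    have e : (P + t • (Q - P)) k = P k := by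
      simp [hk]
    rw [e, Real.norm_eq_abs, hPk] at h1
    exact h1

theorem upd_norm {P : V} {s a : ℝ} {k : Fin 3} (hP : ‖P‖ ≤ s) (ha : |a| ≤ s) :
    ‖Function.update P k a‖ ≤ s := by
  rw [pi_norm_le_iff_of_nonneg ((norm_nonneg _).trans hP)]
  intro i
  by_cases hik : i = k
  · subst hik
    rw [Function.update_self]
    exact ha
  · rw [Function.update_of_ne hik]
    exact (norm_le_pi_norm P i).trans hP

/-- Two points of the surface of a cube are joined by three segments in its faces. -/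
theorem path {Z Y : V} {s : ℝ} (hs : 0 < s) (hZ : ‖Z‖ = s) (hY : ‖Y‖ = s) :
    ∃ W₁ W₂ : V, ‖W₁‖ ≤ s ∧ ‖W₂‖ ≤ s ∧ (∀ t ∈ Icc (0 : ℝ) 1, ‖Z + t • (W₁ - Z)‖ = s) ∧
      (∀ t ∈ Icc (0 : ℝ) 1, ‖W₁ + t • (W₂ - W₁)‖ = s) ∧
      ∀ t ∈ Icc (0 : ℝ) 1, ‖W₂ + t • (Y - W₂)‖ = s := by
  obtain ⟨i, hi⟩ := exists_face hs hZ
  obtain ⟨j, hj⟩ := exists_face hs hY
  obtain ⟨k, W₁, hkj, h1, h2, h3⟩ : ∃ (k : Fin 3) (W₁ : V), j ≠ k ∧ ‖W₁‖ ≤ s ∧ |W₁ k| = s ∧
      (∀ t ∈ Icc (0 : ℝ) 1, ‖Z + t • (W₁ - Z)‖ = s) := by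
    by_cases hij : j = i
    · refine ⟨i + 1, Function.update Z (i + 1) s, ?_, upd_norm hZ.le (abs_of_pos hs).le, ?_, ?_⟩
      · rw [hij]
        fin_cases i <;> simp
      · rw [Function.update_self, abs_of_pos hs]
      · intro t ht
        have hne : i ≠ i + 1 := by fin_cases i <;> simp
        refine seg_surf (k := i) ?_ hi hZ.le (upd_norm hZ.le (abs_of_pos hs).le) ht
        rw [Function.update_of_ne hne]
    · exact ⟨i, Z, hij, hZ.le, hi, fun t _ => by rw [sub_self, smul_zero, add_zero, hZ]⟩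
  refine ⟨W₁, Function.update Y k (W₁ k), h1, upd_norm hY.le h2.le, h3, fun t ht => ?_, fun t ht => ?_⟩
  · refine seg_surf (k := k) ?_ h2 h1 (upd_norm hY.le h2.le) ht
    rw [Function.update_self]
  · refine seg_surf (k := j) ?_ ?_ (upd_norm hY.le h2.le) hY.le ht
    · rw [Function.update_of_ne hkj]
    · rw [Function.update_of_ne hkj, hj]

/-- **VL-10.** -/
theorem anaS : StmAnaS := by
  intro c h ε b hc hh hh1 hε hb
  obtain ⟨ρ, hρ⟩ : ∃ ρ : ℝ, ρ = min (b / 2) (h / 2) := ⟨_, rfl⟩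
  have hρ0 : 0 < ρ := by rw [hρ]; exact lt_min (by positivity) (by positivity)
  have hρb : ρ ≤ b / 2 := by rw [hρ]; exact min_le_left _ _
  have hρh : ρ ≤ h / 2 := by rw [hρ]; exact min_le_right _ _
  obtain ⟨β₂, hβ₂, H₂⟩ := seg_step c h (ρ / 2 / 2) (ε / 3) hc hh (by positivity) (by linarith)
    (by positivity)
  obtain ⟨β₁, hβ₁, H₁⟩ := seg_step c h (ρ / 2) β₂ hc hh (by positivity) (by linarith) hβ₂
  obtain ⟨β₀, hβ₀, H₀⟩ := seg_step c h ρ β₁ hc hh (by positivity) (by linarith) hβ₁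
  obtain ⟨τ, hτ, Hs⟩ := start c h b ρ β₀ hc hh hb hρ0 hρb hρh hβ₀
  refine ⟨τ, min (ρ / 2 / 2 / 2) (1 / 128), hτ, lt_min (by positivity) (by norm_num),
    (min_le_left _ _).trans (by linarith), ?_⟩
  intro v x z r s hv hr hs1 hs2 hG hz hint y hy
  have hs0 : 0 < s := lt_of_lt_of_le (by positivity) hs1
  have hw1 : min (ρ / 2 / 2 / 2) (1 / 128) * r ≤ ρ / 2 / 2 / 2 * r :=
    mul_le_mul_of_nonneg_right (min_le_left _ _) hr.le
  have hw2 : min (ρ / 2 / 2 / 2) (1 / 128) * r ≤ 1 / 128 * r :=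
    mul_le_mul_of_nonneg_right (min_le_right _ _) hr.le
  have hy0 : 0 < ‖y - x‖ := by
    have := (abs_le.1 hy).1
    linarith
  obtain ⟨Y, hYd⟩ : ∃ Y : V, Y = (s / ‖y - x‖) • (y - x) := ⟨_, rfl⟩
  have hY : ‖Y‖ = s := by
    rw [hYd, norm_smul, Real.norm_eq_abs, abs_of_pos (by positivity)]
    field_simp
  have hyY : ‖y - (x + Y)‖ ≤ ρ / 2 / 2 / 2 * r := by
    have e : y - (x + Y) = (1 - s / ‖y - x‖) • (y - x) := by
      rw [hYd, sub_smul, one_smul]; abel
    rw [e, norm_smul, Real.norm_eq_abs]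
    have e2 : |1 - s / ‖y - x‖| * ‖y - x‖ = |‖y - x‖ - s| := by
      rw [← abs_of_pos hy0, ← abs_mul, abs_of_pos hy0]
      congr 1
      field_simp
    rw [e2]
    exact hy.trans hw1
  obtain ⟨Z, hZd⟩ : ∃ Z : V, Z = z - x := ⟨_, rfl⟩
  have hZ : ‖Z‖ = s := by rw [hZd]; exact hz
  obtain ⟨W₁, W₂, n1, n2, p1, p2, p3⟩ := path hs0 hZ hY
  have hzZ : x + Z = z := by rw [hZd]; abel
  have dist2 : ∀ A B : V, ‖A‖ ≤ s → ‖B‖ ≤ s → ‖(x + A) - (x + B)‖ ≤ r / 16 := by
    intro A B hA hB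
    have e : (x + A) - (x + B) = A - B := by abel
    rw [e]
    refine (norm_sub_le _ _).trans ?_
    linarith
  have gd2 : ∀ A B : V, (∀ t ∈ Icc (0 : ℝ) 1, ‖A + t • (B - A)‖ = s) →
      ∀ t ∈ Icc (0 : ℝ) 1, Gd c (h * r) v ((x + A) + t • ((x + B) - (x + A))) := by
    intro A B hAB t ht
    apply hG
    have e : x + A + t • (x + B - (x + A)) - x = A + t • (B - A) := by
      have : x + B - (x + A) = B - A := by abel
      rw [this]; abel
    rw [e]
    exact hAB t ht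
  have q0 := Hs v r z hv hr (hG z hz) hint
  rw [← hzZ] at q0
  have q1 := H₀ v r (x + Z) (x + W₁) hv hr (dist2 _ _ n1 hZ.le) (gd2 _ _ p1) q0
  have q2 := H₁ v r (x + W₁) (x + W₂) hv hr (dist2 _ _ n2 n1) (gd2 _ _ p2) q1
  have q3 := H₂ v r (x + W₂) (x + Y) hv hr (dist2 _ _ hY.le n2) (gd2 _ _ p3) q2
  have hkey : ∀ i j : Fin 3, Idx i j → |cur i j v y| ≤ ε / (3 * r ^ 2) := by
    intro i j hij
    have := q3 y hyY i j hij
    rw [le_div_iff₀ (by positivity)]
    linarith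
  have h1 := om_le_sum v y (ε / (3 * r ^ 2)) (hkey 1 2 (Or.inl ⟨rfl, rfl⟩))
    (hkey 2 0 (Or.inr (Or.inl ⟨rfl, rfl⟩))) (hkey 0 1 (Or.inr (Or.inr ⟨rfl, rfl⟩)))
  refine h1.trans (le_of_eq ?_)
  field_simp

end Pool.Agent.H1VL
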