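import Pool.Agent.Q85.VL.Defs
import Pool.Agent.Q67.VD.Alg

/-!
# A function which increases along the arcs (VL-12)
-/

set_option autoImplicit false

namespace Pool.Agent.H1VL

open MeasureTheory Set Metric
open scoped ContDiff
open H459R3.NS Pool.Agent.W268.NS Pool.Agent.Q67.VD Pool.Agent.Q85.VL

theorem len_tri (a b : V) : len (a + b) ≤ len a + len b := by
  rw [len_eq, len_eq, len_eq, WithLp.toLp_add]
  exact norm_add_le _ _

theorem len_negg (a : V) : len (-a) = len a := by
  have h := len_smul (-1) a
  rw [neg_one_smul] at h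
  rw [h]
  simp

theorem len_symm (a b : V) : len (a - b) = len (b - a) := by
  rw [← len_negg, neg_sub]

theorem len_le_two (a : V) : len a ≤ 2 * ‖a‖ := by
  apply len_le_of_sq (by positivity)
  have h : ∀ i, a i ^ 2 ≤ ‖a‖ ^ 2 := fun i => by
    rw [← sq_abs]
    exact pow_le_pow_left₀ (abs_nonneg _) (norm_le_pi_norm a i) 2
  nlinarith [h 0, h 1, h 2, sq_nonneg ‖a‖]

/-- the values of the chains with the end point `v` -/
def TV (z : V → V) (D : Set V) (ε : ℝ) (v : V) : Set ℝ :=
  {r | ∃ (n : ℕ) (p q : ℕ → V) (l : ℕ → ℝ), p n = v ∧ (∀ i < n, Arc z D (p i) (q i) (l i)) ∧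
    r = ε * ∑ i ∈ Finset.range n, l i - ∑ i ∈ Finset.range n, len (p (i + 1) - q i)}

theorem Arc.mem_left {z : V → V} {D : Set V} {p q : V} {l : ℝ} (h : Arc z D p q l) : p ∈ D := by
  obtain ⟨hl, γ, h0, h1, h2⟩ := h
  rw [← h0]
  exact (h2 0 ⟨le_refl _, hl.le⟩).1

theorem Arc.mem_right {z : V → V} {D : Set V} {p q : V} {l : ℝ} (h : Arc z D p q l) : q ∈ D := by
  obtain ⟨hl, γ, h0, h1, h2⟩ := h
  rw [← h1]
  exact (h2 l ⟨hl.le, le_refl _⟩).1

/-- the change of the end point of a chain -/
theorem TV_move {z : V → V} {D : Set V} {ε : ℝ} {v v' : V} {r : ℝ} (h : r ∈ TV z D ε v) :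
    ∃ r' ∈ TV z D ε v', r - len (v' - v) ≤ r' := by
  obtain ⟨n, p, q, l, hpn, hA, hr⟩ := h
  cases n with
  | zero =>
    refine ⟨0, ⟨0, fun _ => v', q, l, rfl, fun i hi => absurd hi (Nat.not_lt_zero i), by simp⟩, ?_⟩
    rw [hr]
    simp only [Finset.range_zero, Finset.sum_empty, mul_zero, sub_zero]
    have := len_nonneg (v' - v)
    linarith
  | succ n =>
    refine ⟨_, ⟨n + 1, Function.update p (n + 1) v', q, l, by simp, fun i hi => ?_, rfl⟩, ?_⟩
    · rw [Function.update_of_ne (by omega)]
      exact hA i hi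
    · rw [hr, Finset.sum_range_succ (fun i => len (p (i + 1) - q i)),
        Finset.sum_range_succ (fun i => len (Function.update p (n + 1) v' (i + 1) - q i))]
      have h1 : ∑ i ∈ Finset.range n, len (Function.update p (n + 1) v' (i + 1) - q i)
          = ∑ i ∈ Finset.range n, len (p (i + 1) - q i) := by
        refine Finset.sum_congr rfl fun i hi => ?_
        rw [Finset.mem_range] at hi
        rw [Function.update_of_ne (by omega)]
      rw [h1, Function.update_self, hpn]
      have h2 := len_tri (v' - v) (v - q n)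
      rw [sub_add_sub_cancel] at h2
      linarith

theorem TV_bdd {z : V → V} {D : Set V} {a : V} {R ε : ℝ} (hD : ∀ y ∈ D, ‖y - a‖ ≤ R)
    (hR : 0 ≤ R) (hc : ¬ Chained z D ε) (v : V) {r : ℝ} (h : r ∈ TV z D ε v) : r ≤ 4 * R := by
  obtain ⟨n, p, q, l, hpn, hA, hr⟩ := h
  cases n with
  | zero =>
    rw [hr]
    simp only [Finset.range_zero, Finset.sum_empty, mul_zero, sub_zero]
    positivity
  | succ n =>
    by_contra hcon
    push Not at hcon
    apply hc
    refine ⟨n + 1, Function.update p (n + 1) (p 0), q, l, Nat.succ_pos n, ?_, fun i hi => ?_, ?_⟩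
    · rw [Function.update_self, Function.update_of_ne (by omega)]
    · rw [Function.update_of_ne (by omega)]
      exact hA i hi
    · rw [Finset.sum_range_succ (fun i => len (Function.update p (n + 1) (p 0) (i + 1) - q i))]
      have h1 : ∑ i ∈ Finset.range n, len (Function.update p (n + 1) (p 0) (i + 1) - q i)
          = ∑ i ∈ Finset.range n, len (p (i + 1) - q i) := by
        refine Finset.sum_congr rfl fun i hi => ?_
        rw [Finset.mem_range] at hi
        rw [Function.update_of_ne (by omega)]
      rw [h1, Function.update_self]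
      rw [hr, Finset.sum_range_succ (fun i => len (p (i + 1) - q i))] at hcon
      have h2 := len_nonneg (p (n + 1) - q n)
      have h3 : len (p 0 - q n) ≤ 4 * R := by
        have h4 := hD _ (Arc.mem_left (hA 0 (Nat.succ_pos n)))
        have h5 := hD _ (Arc.mem_right (hA n (Nat.lt_succ_self n)))
        have h6 : p 0 - q n = (p 0 - a) - (q n - a) := by abel
        have h7 := norm_sub_le (p 0 - a) (q n - a)
        rw [← h6] at h7
        have h8 := len_le_two (p 0 - q n)
        linarith
      linarith

theorem TV_arc {z : V → V} {D : Set V} {ε : ℝ} {p' q' : V} {l' : ℝ} (hA' : Arc z D p' q' l')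
    {r : ℝ} (h : r ∈ TV z D ε p') : r + ε * l' ∈ TV z D ε q' := by
  obtain ⟨n, p, q, l, hpn, hA, hr⟩ := h
  refine ⟨n + 1, Function.update p (n + 1) q', Function.update q n q', Function.update l n l',
    by simp, fun i hi => ?_, ?_⟩
  · rcases Nat.lt_succ_iff_lt_or_eq.1 hi with h1 | h1
    · rw [Function.update_of_ne (by omega), Function.update_of_ne (by omega),
        Function.update_of_ne (by omega)]
      exact hA i h1
    · rw [h1, Function.update_of_ne (by omega), Function.update_self, Function.update_self, hpn]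
      exact hA'
  · rw [Finset.sum_range_succ, Finset.sum_range_succ
      (fun i => len (Function.update p (n + 1) q' (i + 1) - Function.update q n q' i))]
    have h1 : ∑ i ∈ Finset.range n,
        len (Function.update p (n + 1) q' (i + 1) - Function.update q n q' i)
        = ∑ i ∈ Finset.range n, len (p (i + 1) - q i) := by
      refine Finset.sum_congr rfl fun i hi => ?_
      rw [Finset.mem_range] at hi
      rw [Function.update_of_ne (by omega), Function.update_of_ne (by omega)]
    have h2 : ∑ i ∈ Finset.range n, Function.update l n l' i = ∑ i ∈ Finset.range n, l i := by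
      refine Finset.sum_congr rfl fun i hi => ?_
      rw [Finset.mem_range] at hi
      rw [Function.update_of_ne (by omega)]
    rw [h1, h2, Function.update_self, Function.update_self, Function.update_self, sub_self,
      len_zero, hr]
    ring

/-- **VL-12.** -/
theorem stmG : StmG := by
  intro z D a R ε hD hε hc
  have hR' : ∃ R' : ℝ, 0 ≤ R' ∧ ∀ y ∈ D, ‖y - a‖ ≤ R' :=
    ⟨max R 0, le_max_right _ _, fun y hy => (hD y hy).trans (le_max_left _ _)⟩
  obtain ⟨R', hR0, hD'⟩ := hR'
  have hne : ∀ v, (0 : ℝ) ∈ TV z D ε v := fun v =>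
    ⟨0, fun _ => v, fun _ => v, fun _ => 0, rfl, fun i hi => absurd hi (Nat.not_lt_zero i),
      by simp⟩
  have hbd : ∀ v, BddAbove (TV z D ε v) := fun v =>
    ⟨4 * R', fun r hr => TV_bdd hD' hR0 hc v hr⟩
  have hone : ∀ y y', sSup (TV z D ε y) ≤ sSup (TV z D ε y') + len (y' - y) := by
    intro y y'
    refine csSup_le ⟨0, hne y⟩ fun r hr => ?_
    obtain ⟨r', hr', hrr⟩ := TV_move (v' := y') hr
    have := le_csSup (hbd y') hr'
    linarith
  refine ⟨fun v => sSup (TV z D ε v), fun y y' => ?_, fun p q l hA => ?_⟩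
  · rw [abs_le]
    have h1 := hone y y'
    have h2 := hone y' y
    rw [len_symm y' y] at h1
    constructor <;> linarith
  · have h1 : sSup (TV z D ε p) ≤ sSup (TV z D ε q) - ε * l := by
      refine csSup_le ⟨0, hne p⟩ fun r hr => ?_
      have := le_csSup (hbd q) (TV_arc hA hr)
      linarith
    show sSup (TV z D ε p) + ε * l ≤ sSup (TV z D ε q)
    linarith

end Pool.Agent.H1VL
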