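import Pool.Agent.Q85.VL.Defs
import Pool.Agent.Q151.CC.Double

/-!
# Orientations of the vorticity (VL-11)
-/

set_option autoImplicit false

namespace Pool.Agent.H1VL

open MeasureTheory Set Metric Filter Topology Asymptotics
open scoped ContDiff
open H459R3.NS Pool.Agent.W268.NS Pool.Agent.Q67.VD Pool.Agent.Q85.CC Pool.Agent.Q85.CL
open Pool.Agent.Q85.VL Pool.Agent.Q151.CC

theorem or_abs {θ : V → ℝ} (hθ : ∀ y, θ y = 1 ∨ θ y = -1) (y : V) : |θ y| = 1 := by
  rcases hθ y with h | h <;> rw [h] <;> simp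

/-- A signed `C¹` function: the sign may jump only where the function and its derivative vanish. -/
theorem signed_fderiv {θ g : V → ℝ} (hθ : ∀ y, θ y = 1 ∨ θ y = -1) (hg : ContDiff ℝ 1 g)
    (h : ∀ y, (g y = 0 ∧ fderiv ℝ g y = 0) ∨ ∀ᶠ z in 𝓝 y, θ z = θ y) (y : V) :
    HasFDerivAt (fun z => θ z * g z) (θ y • fderiv ℝ g y) y := by
  have hd : HasFDerivAt g (fderiv ℝ g y) y := (hg.differentiable (by simp) y).hasFDerivAt
  rcases h y with ⟨h1, h2⟩ | h1
  · rw [h2] at hd ⊢
    rw [smul_zero]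
    rw [hasFDerivAt_iff_isLittleO_nhds_zero] at hd ⊢
    refine IsLittleO.of_norm_left (IsLittleO.congr_left hd.norm_left fun z => ?_)
    have := or_abs hθ (y + z)
    simp [h1, this]
  · have h2 := hd.const_mul (θ y)
    refine h2.congr_of_eventuallyEq ?_
    filter_upwards [h1] with z hz
    rw [hz]

theorem signed_c1 {θ g : V → ℝ} (hθ : ∀ y, θ y = 1 ∨ θ y = -1) (hg : ContDiff ℝ 1 g)
    (h : ∀ y, (g y = 0 ∧ fderiv ℝ g y = 0) ∨ ∀ᶠ z in 𝓝 y, θ z = θ y) :
    ContDiff ℝ 1 fun z => θ z * g z := by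
  have hd := signed_fderiv hθ hg h
  rw [contDiff_one_iff_fderiv]
  refine ⟨fun y => (hd y).differentiableAt, ?_⟩
  have he : fderiv ℝ (fun z => θ z * g z) = fun y => θ y • fderiv ℝ g y :=
    funext fun y => (hd y).fderiv
  rw [he, continuous_iff_continuousAt]
  intro y
  have hc : Continuous (fderiv ℝ g) := hg.continuous_fderiv (by simp)
  rcases h y with ⟨h1, h2⟩ | h1
  · rw [ContinuousAt, h2, smul_zero, tendsto_zero_iff_norm_tendsto_zero]
    have h3 : Tendsto (fun z => ‖fderiv ℝ g z‖) (𝓝 y) (𝓝 0) := by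
      have := hc.norm.tendsto y
      rwa [h2, norm_zero] at this
    refine squeeze_zero (fun z => norm_nonneg _) (fun z => ?_) h3
    rw [norm_smul, Real.norm_eq_abs, or_abs hθ, one_mul]
  · have h2 : ContinuousAt (fun z => θ y • fderiv ℝ g z) y := (hc.const_smul (θ y)).continuousAt
    refine h2.congr ?_
    filter_upwards [h1] with z hz
    rw [hz]

section

variable {v : V → V} {θ : V → ℝ} {a : V} {R : ℝ}

/-- the extended field -/
noncomputable def Wf (v : V → V) (θ : V → ℝ) (a : V) (R : ℝ) (y : V) : V :=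
  θ (clp a R y) • vort v (clp a R y)

theorem Wf_eq (hR : 0 ≤ R) {y : V} (hy : y ∈ closedBall a R) : Wf v θ a R y = θ y • vort v y := by
  unfold Wf
  rw [clp_eq hR hy]

theorem Wf_cont (hv : SM v) (hR : 0 ≤ R) (h : Orient θ a R (vort v)) : Continuous (Wf v θ a R) := by
  have h1 : ContinuousOn (fun y => θ y • vort v y) (closedBall a R) := by
    intro y hy
    have hwc : Continuous (vort v) := vort_cont hv
    by_cases h0 : vort v y = 0
    · rw [ContinuousWithinAt, h0, smul_zero, tendsto_zero_iff_norm_tendsto_zero]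
      have h3 : Tendsto (fun z => ‖vort v z‖) (𝓝[closedBall a R] y) (𝓝 0) := by
        have := (hwc.norm.tendsto y).mono_left (nhdsWithin_le_nhds (s := closedBall a R))
        rwa [h0, norm_zero] at this
      refine squeeze_zero (fun z => norm_nonneg _) (fun z => ?_) h3
      rw [norm_smul, Real.norm_eq_abs, or_abs h.1, one_mul]
    · have hyR : ‖y - a‖ ≤ R := by rwa [mem_closedBall, dist_eq_norm] at hy
      have hθc : ContinuousWithinAt θ (closedBall a R) y := by
        refine (h.2 y ⟨hyR, h0⟩).mono_of_mem_nhdsWithin ?_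
        have h4 : {z | vort v z ≠ 0} ∈ 𝓝 y := (isOpen_ne_fun hwc continuous_const).mem_nhds h0
        filter_upwards [mem_nhdsWithin_of_mem_nhds h4, self_mem_nhdsWithin] with z hz1 hz2
        refine ⟨?_, hz1⟩
        rwa [mem_closedBall, dist_eq_norm] at hz2
      exact hθc.smul hwc.continuousWithinAt
  exact h1.comp_continuous (clp_cont a R) (clp_mem hR a)

theorem or_loc (hv : SM v) (h : Orient θ a R (vort v)) {y : V} (hy : y ∈ ball a R)
    (h0 : vort v y ≠ 0) : ∀ᶠ z in 𝓝 y, θ z = θ y := by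
  have hwc : Continuous (vort v) := vort_cont hv
  have hy' : ‖y - a‖ ≤ R := by
    rw [Metric.mem_ball, dist_eq_norm] at hy
    exact hy.le
  have h4 : {z | ‖z - a‖ ≤ R ∧ vort v z ≠ 0} ∈ 𝓝 y := by
    have h5 : {z | vort v z ≠ 0} ∈ 𝓝 y := (isOpen_ne_fun hwc continuous_const).mem_nhds h0
    filter_upwards [h5, isOpen_ball.mem_nhds hy] with z hz1 hz2
    refine ⟨?_, hz1⟩
    rw [Metric.mem_ball, dist_eq_norm] at hz2
    exact hz2.le
  have h6 : ContinuousAt θ y := (h.2 y ⟨hy', h0⟩).continuousAt h4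
  have h7 := h6.eventually (Metric.ball_mem_nhds (θ y) (zero_lt_one))
  filter_upwards [h7] with z hz
  rw [Real.dist_eq] at hz
  rcases h.1 z with h8 | h8 <;> rcases h.1 y with h9 | h9 <;> rw [h8, h9] at hz ⊢ <;> norm_num at hz

/-- the squared length -/
noncomputable def Nf (v : V → V) (y : V) : ℝ := vort v y ⬝ᵥ vort v y

theorem vort_smooth (hv : SM v) : ContDiff ℝ 1 (vort v) := contDiff_pi.2 (vort_df hv).smooth

theorem Nf_eq (v : V → V) : Nf v = fun y => ∑ i, vort v y i * vort v y i := rfl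

theorem Nf_c1 (hv : SM v) : ContDiff ℝ 1 (Nf v) := by
  rw [Nf_eq]
  have h : ContDiff ℝ 1 (vort v) := vort_smooth hv
  rw [contDiff_pi] at h
  exact ContDiff.sum fun i _ => (h i).mul (h i)

theorem Nf_nonneg (v : V → V) (y : V) : 0 ≤ Nf v y := by
  rw [Nf_eq]
  exact Finset.sum_nonneg fun i _ => mul_self_nonneg _

theorem Nf_zero {y : V} (h : vort v y = 0) : Nf v y = 0 := by
  rw [Nf_eq]
  simp [h]

theorem Nf_pos {y : V} (h : vort v y ≠ 0) : 0 < Nf v y := by
  refine lt_of_le_of_ne (Nf_nonneg v y) fun hc => h ?_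
  rw [Nf_eq] at hc
  have h1 := (Finset.sum_eq_zero_iff_of_nonneg (s := Finset.univ)
    (f := fun i => vort v y i * vort v y i) fun i _ => mul_self_nonneg _).1 hc.symm
  funext i
  have := h1 i (Finset.mem_univ i)
  simpa using this

theorem Nf_fderiv (hv : SM v) (y n : V) :
    fderiv ℝ (Nf v) y n = ∑ i, 2 * (vort v y i * fderiv ℝ (vort v) y n i) := by
  have h : HasFDerivAt (vort v) (fderiv ℝ (vort v) y) y :=
    ((vort_smooth hv).differentiable (by simp) y).hasFDerivAt
  rw [hasFDerivAt_pi'] at h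
  have h1 : HasFDerivAt (Nf v) (∑ i, (vort v y i • ((ContinuousLinearMap.proj i).comp
      (fderiv ℝ (vort v) y)) + vort v y i • ((ContinuousLinearMap.proj i).comp
      (fderiv ℝ (vort v) y)))) y := by
    rw [Nf_eq]
    refine HasFDerivAt.fun_sum fun i _ => ?_
    exact (h i).mul (h i)
  rw [h1.fderiv, sum_apply]
  refine Finset.sum_congr rfl fun i _ => ?_
  simp
  ring

theorem Nf_bound (hv : SM v) (y n : V) (c : ℝ) (hc : |c| = 1) (hn : n = c • vort v y) :
    |fderiv ℝ (Nf v) y n| ≤ 6 * ‖fderiv ℝ (vort v) y‖ * Nf v y := by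
  rw [Nf_fderiv hv]
  have h1 : ‖n‖ = ‖vort v y‖ := by
    rw [hn, norm_smul, Real.norm_eq_abs, hc, one_mul]
  have h2 : ‖vort v y‖ ^ 2 ≤ Nf v y := by
    have h3 : ‖vort v y‖ ≤ √(Nf v y) := norm_le_len _
    calc ‖vort v y‖ ^ 2 ≤ √(Nf v y) ^ 2 := pow_le_pow_left₀ (norm_nonneg _) h3 2
      _ = Nf v y := Real.sq_sqrt (Nf_nonneg v y)
  refine (Finset.abs_sum_le_sum_abs _ _).trans ?_
  have h4 : ∀ i : Fin 3, |2 * (vort v y i * fderiv ℝ (vort v) y n i)|
      ≤ 2 * (‖fderiv ℝ (vort v) y‖ * Nf v y) := by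
    intro i
    rw [abs_mul, abs_mul, abs_two]
    apply mul_le_mul_of_nonneg_left _ zero_le_two
    have h5 : |vort v y i| ≤ ‖vort v y‖ := norm_le_pi_norm (vort v y) i
    have h6 : |fderiv ℝ (vort v) y n i| ≤ ‖fderiv ℝ (vort v) y‖ * ‖vort v y‖ := by
      refine (norm_le_pi_norm (fderiv ℝ (vort v) y n) i).trans ?_
      rw [← h1]
      exact ContinuousLinearMap.le_opNorm _ _
    calc |vort v y i| * |fderiv ℝ (vort v) y n i|
        ≤ ‖vort v y‖ * (‖fderiv ℝ (vort v) y‖ * ‖vort v y‖) :=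
          mul_le_mul h5 h6 (abs_nonneg _) (norm_nonneg _)
      _ = ‖fderiv ℝ (vort v) y‖ * ‖vort v y‖ ^ 2 := by ring
      _ ≤ _ := mul_le_mul_of_nonneg_left h2 (norm_nonneg _)
  refine (Finset.sum_le_sum fun i _ => h4 i).trans (le_of_eq ?_)
  rw [Finset.sum_const, Finset.card_univ, Fintype.card_fin, nsmul_eq_mul]
  push_cast
  ring

/-- the regularised test function -/
noncomputable def gf (v : V → V) (δ : ℝ) (F : V → ℝ) (y : V) : ℝ := Nf v y / (Nf v y + δ) * F y

theorem gf_c1 (hv : SM v) {δ : ℝ} (hδ : 0 < δ) {F : V → ℝ} (hF : ContDiff ℝ 1 F) :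
    ContDiff ℝ 1 (gf v δ F) := by
  have h := Nf_c1 hv
  have h0 : ∀ y, Nf v y + δ ≠ 0 := fun y => by
    have := Nf_nonneg v y
    positivity
  exact (h.div (h.add contDiff_const) h0).mul hF

theorem gf_fderiv (hv : SM v) {δ : ℝ} (hδ : 0 < δ) {F : V → ℝ} (hF : ContDiff ℝ 1 F) (y : V) :
    fderiv ℝ (gf v δ F) y = (Nf v y / (Nf v y + δ)) • fderiv ℝ F y
      + (F y * (δ / (Nf v y + δ) ^ 2)) • fderiv ℝ (Nf v) y := by
  have h1 : HasFDerivAt (Nf v) (fderiv ℝ (Nf v) y) y :=
    ((Nf_c1 hv).differentiable (by simp) y).hasFDerivAt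
  have hF1 : HasFDerivAt F (fderiv ℝ F y) y := (hF.differentiable (by simp) y).hasFDerivAt
  have h0 : Nf v y + δ ≠ 0 := by
    have := Nf_nonneg v y
    positivity
  have h2 : HasDerivAt (fun s : ℝ => s / (s + δ)) (δ / (Nf v y + δ) ^ 2) (Nf v y) := by
    have h3 := (hasDerivAt_id (Nf v y)).div ((hasDerivAt_id (Nf v y)).add_const δ) h0
    refine h3.congr_deriv ?_
    simp only [id]
    congr 1
    ring
  have h3 : HasFDerivAt (fun y => Nf v y / (Nf v y + δ))
      ((δ / (Nf v y + δ) ^ 2) • fderiv ℝ (Nf v) y) y := h2.comp_hasFDerivAt y h1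
  have h4 := h3.mul hF1
  have h5 : HasFDerivAt (gf v δ F) ((Nf v y / (Nf v y + δ)) • fderiv ℝ F y +
      F y • (δ / (Nf v y + δ) ^ 2) • fderiv ℝ (Nf v) y) y := h4
  rw [h5.fderiv, smul_smul]

theorem vanish {F : V → ℝ} (hR : 0 < R) (hF : ContDiff ℝ 1 F) (hts : tsupport F ⊆ closedBall a R)
    {y : V} (hy : y ∉ ball a R) : F y = 0 ∧ fderiv ℝ F y = 0 := by
  have hcl : y ∈ closure (closedBall a R)ᶜ := by
    rw [closure_compl, interior_closedBall _ hR.ne']
    exact hy
  have h1 : ∀ z ∈ (closedBall a R)ᶜ, F z = 0 ∧ fderiv ℝ F z = 0 := by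
    intro z hz
    have hz' : z ∉ tsupport F := fun hc => hz (hts hc)
    refine ⟨image_eq_zero_of_notMem_tsupport hz', ?_⟩
    by_contra hc
    exact hz' (support_fderiv_subset ℝ hc)
  have hc1 : IsClosed {z | F z = 0 ∧ fderiv ℝ F z = 0} :=
    (isClosed_eq hF.continuous continuous_const).inter
      (isClosed_eq (hF.continuous_fderiv (by simp)) continuous_const)
  exact closure_minimal h1 hc1 hcl

theorem key_id (hv : SM v) (hR : 0 < R) (h : Orient θ a R (vort v)) {F : V → ℝ}
    (hF : ContDiff ℝ 1 F) (hts : tsupport F ⊆ closedBall a R) {δ : ℝ} (hδ : 0 < δ) :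
    ∫ y in closedBall a R, (Nf v y / (Nf v y + δ) * fderiv ℝ F y (Wf v θ a R y)
      + F y * (δ / (Nf v y + δ) ^ 2) * fderiv ℝ (Nf v) y (Wf v θ a R y)) = 0 := by
  have hg := gf_c1 hv hδ hF
  have hsg : ∀ y, (gf v δ F y = 0 ∧ fderiv ℝ (gf v δ F) y = 0) ∨ ∀ᶠ z in 𝓝 y, θ z = θ y := by
    intro y
    by_cases hy : y ∈ ball a R
    · by_cases h0 : vort v y = 0
      · left
        constructor
        · unfold gf
          rw [Nf_zero h0]
          simp
        · rw [gf_fderiv hv hδ hF, Nf_zero h0]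
          have h1 : fderiv ℝ (Nf v) y = 0 := by
            ext n
            rw [Nf_fderiv hv, h0]
            simp
          rw [h1]
          simp
      · exact Or.inr (or_loc hv h hy h0)
    · left
      obtain ⟨h1, h2⟩ := vanish hR hF hts hy
      constructor
      · unfold gf
        rw [h1, mul_zero]
      · rw [gf_fderiv hv hδ hF, h1, h2]
        simp
  have hG := signed_c1 h.1 hg hsg
  have hsupp : tsupport (fun z => θ z * gf v δ F z) ⊆ closedBall a R := by
    refine closure_minimal (fun z hz => ?_) isClosed_closedBall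
    apply hts
    apply subset_tsupport
    rw [Function.mem_support] at hz ⊢
    intro hc
    apply hz
    unfold gf
    rw [hc, mul_zero, mul_zero]
  have h0 := ((vort_df hv).wd R a).div _ hG hsupp
  rw [← h0]
  refine setIntegral_congr_fun measurableSet_closedBall fun y hy => ?_
  have h1 := (signed_fderiv h.1 hg hsg y).fderiv
  show _ = fderiv ℝ (fun z => θ z * gf v δ F z) y (vort v y)
  rw [h1, gf_fderiv hv hδ hF, Wf_eq hR.le hy]
  simp only [smul_apply, add_apply, map_smul, smul_eq_mul]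
  ring

end

/-- **VL-11.** -/
theorem stmWd : StmWd := by
  intro v θ a R hv hR h
  have hWc := Wf_cont hv hR.le h
  refine ⟨Wf v θ a R, ⟨hWc, fun F hF hts => ?_⟩, fun y hy => Wf_eq hR.le (by
    rwa [mem_closedBall, dist_eq_norm])⟩
  have hNc : Continuous (Nf v) := (Nf_c1 hv).continuous
  have hN' : Continuous (fderiv ℝ (Nf v)) := (Nf_c1 hv).continuous_fderiv (by simp)
  have hF' : Continuous (fderiv ℝ F) := hF.continuous_fderiv (by simp)
  have hw' : Continuous (fderiv ℝ (vort v)) := (vort_smooth hv).continuous_fderiv (by simp)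
  obtain ⟨W, hW⟩ : ∃ W, W = Wf v θ a R := ⟨_, rfl⟩
  obtain ⟨d, hd⟩ : ∃ d : ℕ → ℝ, d = fun n : ℕ => 1 / ((n : ℝ) + 1) := ⟨_, rfl⟩
  have hd0 : ∀ n, 0 < d n := fun n => by rw [hd]; positivity
  have hdt : Tendsto d atTop (𝓝 0) := by
    rw [hd]
    exact tendsto_one_div_add_atTop_nhds_zero_nat
  obtain ⟨φ, hφ⟩ : ∃ φ : ℕ → V → ℝ, φ = fun n y => Nf v y / (Nf v y + d n) * fderiv ℝ F y (W y)
      + F y * (d n / (Nf v y + d n) ^ 2) * fderiv ℝ (Nf v) y (W y) := ⟨_, rfl⟩
  have hz : ∀ n, ∫ y in closedBall a R, φ n y = 0 := by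
    intro n
    rw [hφ, hW]
    exact key_id hv hR h hF hts (hd0 n)
  have hWcc : Continuous W := by rw [hW]; exact hWc
  have hne : ∀ n y, Nf v y + d n ≠ 0 := fun n y => by
    have := Nf_nonneg v y
    have := hd0 n
    positivity
  have hlim : Tendsto (fun n => ∫ y in closedBall a R, φ n y) atTop
      (𝓝 (∫ y in closedBall a R, fderiv ℝ F y (W y))) := by
    refine tendsto_integral_of_dominated_convergence
      (fun y => |fderiv ℝ F y (W y)| + |F y| * (6 * ‖fderiv ℝ (vort v) y‖)) (fun n => ?_) ?_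
      (fun n => ?_) ?_
    · refine Continuous.aestronglyMeasurable ?_
      rw [hφ]
      have e1 : Continuous fun y => Nf v y / (Nf v y + d n) :=
        hNc.div (hNc.add continuous_const) (hne n)
      have e2 : Continuous fun y => fderiv ℝ F y (W y) := hF'.clm_apply hWcc
      have e3 : Continuous fun y => fderiv ℝ (Nf v) y (W y) := hN'.clm_apply hWcc
      have e4 : Continuous fun y => d n / (Nf v y + d n) ^ 2 :=
        continuous_const.div ((hNc.add continuous_const).pow 2) fun y => pow_ne_zero 2 (hne n y)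
      exact (e1.mul e2).add ((hF.continuous.mul e4).mul e3)
    · have hc : Continuous fun y => |fderiv ℝ F y (W y)| + |F y| * (6 * ‖fderiv ℝ (vort v) y‖) :=
        (hF'.clm_apply hWcc).abs.add (hF.continuous.abs.mul (continuous_const.mul hw'.norm))
      exact hc.continuousOn.integrableOn_compact (isCompact_closedBall a R)
    · refine (ae_restrict_iff' measurableSet_closedBall).2 (Eventually.of_forall fun y hy => ?_)
      rw [hφ, Real.norm_eq_abs]
      refine (abs_add_le _ _).trans (add_le_add ?_ ?_)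
      · rw [abs_mul]
        refine mul_le_of_le_one_left (abs_nonneg _) ?_
        have h1 := Nf_nonneg v y
        have h2 := hd0 n
        rw [abs_of_nonneg (by positivity)]
        exact div_le_one_of_le₀ (by linarith) (by positivity)
      · have hWy : W y = θ y • vort v y := by rw [hW]; exact Wf_eq hR.le hy
        have h1 := Nf_bound hv y (W y) (θ y) (or_abs h.1 y) hWy
        have h2 := Nf_nonneg v y
        have h3 := hd0 n
        have h4 : d n / (Nf v y + d n) ^ 2 * Nf v y ≤ 1 := by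
          rw [div_mul_eq_mul_div]
          refine div_le_one_of_le₀ ?_ (by positivity)
          nlinarith
        rw [abs_mul, abs_mul, abs_of_nonneg (by positivity : 0 ≤ d n / (Nf v y + d n) ^ 2), mul_assoc]
        refine mul_le_mul_of_nonneg_left ?_ (abs_nonneg _)
        calc d n / (Nf v y + d n) ^ 2 * |fderiv ℝ (Nf v) y (W y)|
            ≤ d n / (Nf v y + d n) ^ 2 * (6 * ‖fderiv ℝ (vort v) y‖ * Nf v y) :=
              mul_le_mul_of_nonneg_left h1 (by positivity)
          _ = 6 * ‖fderiv ℝ (vort v) y‖ * (d n / (Nf v y + d n) ^ 2 * Nf v y) := by ring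
          _ ≤ 6 * ‖fderiv ℝ (vort v) y‖ * 1 := mul_le_mul_of_nonneg_left h4 (by positivity)
          _ = _ := mul_one _
    · refine (ae_restrict_iff' measurableSet_closedBall).2 (Eventually.of_forall fun y hy => ?_)
      have hWy : W y = θ y • vort v y := by rw [hW]; exact Wf_eq hR.le hy
      rw [hφ]
      by_cases h0 : vort v y = 0
      · rw [h0, smul_zero] at hWy
        simp only [hWy, map_zero, mul_zero, add_zero]
        exact tendsto_const_nhds
      · have hN := Nf_pos h0
        have t1 : Tendsto (fun n => Nf v y / (Nf v y + d n)) atTop (𝓝 1) := by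
          have : Tendsto (fun n => Nf v y / (Nf v y + d n)) atTop (𝓝 (Nf v y / (Nf v y + 0))) :=
            tendsto_const_nhds.div (tendsto_const_nhds.add hdt) (by rw [add_zero]; exact hN.ne')
          rwa [add_zero, div_self hN.ne'] at this
        have t2 : Tendsto (fun n => d n / (Nf v y + d n) ^ 2) atTop (𝓝 0) := by
          have : Tendsto (fun n => d n / (Nf v y + d n) ^ 2) atTop
              (𝓝 (0 / (Nf v y + 0) ^ 2)) :=
            hdt.div ((tendsto_const_nhds.add hdt).pow 2) (by rw [add_zero]; positivity)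
          rwa [zero_div] at this
        have t3 := (t1.mul_const (fderiv ℝ F y (W y))).add
          ((t2.const_mul (F y)).mul_const (fderiv ℝ (Nf v) y (W y)))
        simpa using t3
  simp only [hz] at hlim
  rw [← hW]
  exact (tendsto_nhds_unique hlim tendsto_const_nhds)

end Pool.Agent.H1VL
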